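import Mathlib
import Pool.Agent.Lib.MP_239067_co.Pole.Tables

/-!
Kernel checker for the composition of multipoles: boundary relations are bit masks over the orbits of
labellings, flow values are linear forms `a X + b Y + c`.
-/

set_option autoImplicit false
set_option linter.all false

open Finset BigOperators

namespace Pool.Agent.Lib.MP_239067_co.Pole

/-! ### computable functions -/

/-- bit mask of a label -/
def mk (a : ℕ) : ℕ := Nat.mod (Nat.shiftRight 0xCA69538421 (Nat.mul 4 a)) 16

/-- label of a bit mask, 15 if there is none -/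
def inv (x : ℕ) : ℕ := Nat.mod (Nat.shiftRight 0xFFF9F863F752410F (Nat.mul 4 (Nat.mod x 16))) 16

/-- table lookup, nine bits per entry -/
def look (T c : ℕ) : ℕ := Nat.mod (Nat.shiftRight T (Nat.mul 9 c)) 512

/-- table lookup, five bits per entry -/
def look5 (T c : ℕ) : ℕ := Nat.mod (Nat.shiftRight T (Nat.mul 5 c)) 32

/-- bit test -/
def tb (C i : ℕ) : Bool := Nat.beq (Nat.mod (Nat.shiftRight C i) 2) 1

/-- the relabelling number `w` -/
def rlN (w a : ℕ) : ℕ := Nat.mod (Nat.shiftRight permt (Nat.add (Nat.mul 40 w) (Nat.mul 4 a))) 16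

/-- the generating relabelling number `w` -/
def gnN (w a : ℕ) : ℕ := Nat.mod (Nat.shiftRight gent (Nat.add (Nat.mul 40 w) (Nat.mul 4 a))) 16

/-- digit `j` -/
def dig (v j : ℕ) : ℕ := Nat.mod (Nat.shiftRight v (Nat.mul 4 j)) 16

/-- code of the representative number `i` -/
def repc (b i : ℕ) : ℕ := Nat.shiftRight (rept b) (Nat.mul (Nat.mul 4 b) i)

/-- conjunction over ten values -/
def all10 (f : ℕ → Bool) : Bool :=
  f 0 && (f 1 && (f 2 && (f 3 && (f 4 && (f 5 && (f 6 && (f 7 && (f 8 && f 9))))))))

/-- code of a list of labels, the last one is not used -/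
def codeF : List ℕ → ℕ
  | [] => 0
  | [_] => 0
  | a :: b :: l => Nat.add a (Nat.mul 10 (codeF (b :: l)))

/-- parity mask -/
def parb (b : ℕ) : ℕ := if b % 2 = 1 then 15 else 0

/-- all lists of labels of length `n + 1` whose masks sum to `x` -/
def allL : ℕ → ℕ → (List ℕ → Bool) → Bool
  | 0, x, f => Nat.beq (inv x) 15 || f [inv x]
  | n + 1, x, f => all10 (fun a => allL n (Nat.xor x (mk a)) (fun l => f (a :: l)))

/-- equality of lists -/
def beqL : List ℕ → List ℕ → Bool
  | [], [] => true
  | a :: l, b :: m => Nat.beq a b && beqL l m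
  | _, _ => false

/-- verification of the tables for `b` dangling edges -/
def chkT (b : ℕ) : Bool := allL (b - 1) (parb b) (fun l =>
  Nat.blt (look (tab b) (codeF l)) (norb b) &&
  (Nat.blt (look5 (wit b) (codeF l)) 24 &&
  (beqL (l.map (rlN (look5 (wit b) (codeF l))))
    ((List.range b).map (dig (repc b (look (tab b) (codeF l))))) &&
  (Nat.beq (look (tab b) (codeF (l.map (gnN 0)))) (look (tab b) (codeF l)) &&
  Nat.beq (look (tab b) (codeF (l.map (gnN 1)))) (look (tab b) (codeF l))))))

/-! ### soundness of the enumeration -/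

/-- mask as a vector over the field with two elements -/
def PV (n : ℕ) (c : Fin 4) : ZMod 2 := if n.testBit c.val then 1 else 0

theorem PV_xor (a b : ℕ) (c : Fin 4) : PV (Nat.xor a b) c = PV a c + PV b c := by
  have : (Nat.xor a b).testBit c.val = ((a.testBit c.val) ^^ (b.testBit c.val)) :=
    Nat.testBit_xor a b c.val
  unfold PV
  rw [this]
  cases a.testBit c.val <;> cases b.testBit c.val <;> simp <;> decide

theorem PV_mod (a : ℕ) (c : Fin 4) : PV (a % 16) c = PV a c := by
  unfold PV
  have : (a % 2 ^ 4).testBit c.val = (decide (c.val < 4) && a.testBit c.val) :=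
    Nat.testBit_mod_two_pow a 4 c.val
  have h4 : (2 : ℕ) ^ 4 = 16 := by norm_num
  rw [h4] at this
  rw [this]
  simp [c.isLt]

theorem inv_aux : ∀ x : Fin 16, ∀ l : Fin 10, (∀ c : Fin 4, PV x.val c = PV (mk l.val) c) →
    inv x.val = l.val := by
  decide +kernel

theorem inv_eq (x : ℕ) (l : Fin 10) (h : ∀ c : Fin 4, PV x c = PV (mk l.val) c) :
    inv x = l.val := by
  have h1 := inv_aux ⟨x % 16, Nat.mod_lt _ (by norm_num)⟩ l (fun c => by rw [PV_mod]; exact h c)
  have h2 : inv (x % 16) = inv x := by
    unfold inv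
    show (_ >>> (4 * (x % 16 % 16))) % 16 = (_ >>> (4 * (x % 16))) % 16
    rw [Nat.mod_mod]
  rw [← h2]; exact h1

theorem all10_iff (f : ℕ → Bool) (h : all10 f = true) (a : Fin 10) : f a.val = true := by
  unfold all10 at h
  simp only [Bool.and_eq_true] at h
  obtain ⟨h0, h1, h2, h3, h4, h5, h6, h7, h8, h9⟩ := h
  fin_cases a <;> assumption

theorem allL_sound (n : ℕ) : ∀ (x : ℕ) (f : List ℕ → Bool), allL n x f = true →
    ∀ y : Fin (n + 1) → Fin 10, (∀ c : Fin 4, PV x c = ∑ i, PV (mk (y i).val) c) →
      f (List.ofFn fun i => (y i).val) = true := by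
  induction n with
  | zero =>
    intro x f h y hy
    have h1 : inv x = (y 0).val := inv_eq x (y 0) (fun c => by rw [hy c]; simp)
    unfold allL at h
    rw [h1] at h
    have h2 : Nat.beq (y 0).val 15 = false := by
      have h3 := (y 0).isLt
      cases hb : Nat.beq (y 0).val 15 with
      | false => rfl
      | true =>
        have := Nat.eq_of_beq_eq_true hb
        omega
    rw [h2] at h
    simpa using h
  | succ n ih =>
    intro x f h y hy
    unfold allL at h
    have h1 := all10_iff _ h (y 0)
    have h2 := ih _ _ h1 (fun i => y i.succ) (fun c => by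
      rw [PV_xor, hy c, Fin.sum_univ_succ]
      have : ∀ a b : ZMod 2, a + b + a = b := by decide
      exact this _ _)
    rw [List.ofFn_succ]
    exact h2

theorem PV_parb (b : ℕ) (c : Fin 4) : PV (parb b) c = (b : ZMod 2) := by
  unfold parb
  rcases Nat.mod_two_eq_zero_or_one b with h | h
  · rw [if_neg (by omega)]
    have : (b : ZMod 2) = 0 := by
      rw [ZMod.natCast_eq_zero_iff]; omega
    rw [this]; simp [PV]
  · rw [if_pos h]
    have : (b : ZMod 2) = 1 := by
      have := ZMod.natCast_mod b 2
      rw [h] at this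
      rw [← this]; norm_num
    rw [this]
    fin_cases c <;> decide

/-! ### states -/

/-- weight of position `i` in the code -/
def wt (b i : ℕ) : ℕ := if i + 1 < b then 10 ^ i else 0

/-- code of a state -/
def cd (b : ℕ) (y : Fin b → Fin 10) : ℕ := ∑ i : Fin b, wt b i.val * (y i).val

theorem codeF_ofFn (b : ℕ) : ∀ y : Fin b → ℕ,
    codeF (List.ofFn y) = ∑ i : Fin b, wt b i.val * y i := by
  induction b with
  | zero => intro y; simp [codeF]
  | succ b ih =>
    intro y
    rw [List.ofFn_succ, Fin.sum_univ_succ]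
    cases b with
    | zero => simp [codeF, wt]
    | succ b =>
      have h1 := ih (fun i => y i.succ)
      have h2 : codeF (y 0 :: List.ofFn fun i : Fin (b + 1) => y i.succ)
          = y 0 + 10 * codeF (List.ofFn fun i : Fin (b + 1) => y i.succ) := by
        rw [List.ofFn_succ]; rfl
      rw [h2, h1, Finset.mul_sum]
      congr 1
      · simp [wt]
      · refine Finset.sum_congr rfl fun i _ => ?_
        have : wt (b + 1 + 1) (i.succ).val = 10 * wt (b + 1) i.val := by
          unfold wt
          have h3 : (i.succ).val = i.val + 1 := rfl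
          rw [h3]
          by_cases h4 : i.val + 1 < b + 1
          · rw [if_pos (by omega), if_pos h4, pow_succ]; ring
          · rw [if_neg (by omega), if_neg h4]
        rw [this]; ring

/-- parity condition on a state -/
def Val (b : ℕ) (y : Fin b → Fin 10) : Prop :=
  ∀ c : Fin 4, ∑ i, PV (mk (y i).val) c = (b : ZMod 2)

/-- orbit number of a state -/
def ix (b : ℕ) (y : Fin b → Fin 10) : ℕ := look (tab b) (cd b y)

/-- the relation given by the bit mask `C` -/
def Cs (b C : ℕ) (y : Fin b → Fin 10) : Prop := Val b y ∧ tb C (ix b y) = true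

theorem rlN_lt : ∀ w : Fin 24, ∀ a : Fin 10, rlN w.val a.val < 10 := by decide +kernel

theorem gnN_lt : ∀ w : Fin 2, ∀ a : Fin 10, gnN w.val a.val < 10 := by decide +kernel

/-- relabelling -/
def rl (w : Fin 24) (a : Fin 10) : Fin 10 := ⟨rlN w.val a.val, rlN_lt w a⟩

/-- generating relabelling -/
def gn (w : Fin 2) (a : Fin 10) : Fin 10 := ⟨gnN w.val a.val, gnN_lt w a⟩

/-- action of the generators on the colours -/
def gpi (w : Fin 2) (c : Fin 4) : Fin 4 := if w = 0 then ![1, 0, 2, 3] c else ![3, 0, 1, 2] c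

theorem gn_PV : ∀ w : Fin 2, ∀ a : Fin 10, ∀ c : Fin 4,
    PV (mk (gn w a).val) c = PV (mk a.val) (gpi w c) := by decide +kernel

/-- words as functions -/
def wf (l : List ℕ) (a : Fin 10) : Fin 10 :=
  l.foldr (fun g x => if g = 0 then gn 0 x else gn 1 x) a

theorem rl_wf : ∀ w : Fin 24, ∀ a : Fin 10, rl w a = wf (wordt.getD w.val []) a := by
  decide +kernel

theorem Val.gn {b : ℕ} {y : Fin b → Fin 10} (h : Val b y) (w : Fin 2) :
    Val b (fun i => Pole.gn w (y i)) := by
  intro c
  simp only [gn_PV]
  exact h (gpi w c)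

/-- what the table check gives -/
structure Good (b : ℕ) : Prop where
  g0 : ∀ y : Fin b → Fin 10, Val b y → ix b y < norb b
  g1 : ∀ y : Fin b → Fin 10, Val b y → ∃ w : Fin 24, ∀ i : Fin b,
    (rl w (y i)).val = dig (repc b (ix b y)) i.val
  g2 : ∀ y : Fin b → Fin 10, Val b y → ∀ w : Fin 2, ix b (fun i => gn w (y i)) = ix b y

theorem beqL_eq : ∀ l m : List ℕ, beqL l m = true → l = m := by
  intro l
  induction l with
  | nil => intro m h; cases m with
    | nil => rfl
    | cons a m => simp [beqL] at h
  | cons a l ih => intro m h; cases m with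
    | nil => simp [beqL] at h
    | cons b m =>
      simp only [beqL, Bool.and_eq_true] at h
      rw [Nat.eq_of_beq_eq_true h.1, ih m h.2]

theorem good_of (n : ℕ) (h : chkT (n + 1) = true) : Good (n + 1) := by
  have key : ∀ y : Fin (n + 1) → Fin 10, Val (n + 1) y → _ := fun y hy =>
    allL_sound n _ _ h y (fun c => by rw [PV_parb, hy c])
  have hcd : ∀ y : Fin (n + 1) → Fin 10, codeF (List.ofFn fun i => (y i).val) = cd (n + 1) y :=
    fun y => codeF_ofFn _ _
  have hmap : ∀ (f : ℕ → ℕ) (y : Fin (n + 1) → Fin 10),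
      (List.ofFn fun i => (y i).val).map f = List.ofFn fun i => f (y i).val := by
    intro f y; rw [List.map_ofFn]; rfl
  refine ⟨fun y hy => ?_, fun y hy => ?_, fun y hy w => ?_⟩
  · have := key y hy
    simp only [Bool.and_eq_true, hcd] at this
    have h1 := this.1
    rw [Nat.blt_eq] at h1
    exact h1
  · have := key y hy
    simp only [Bool.and_eq_true, hcd, hmap] at this
    have h1 := this.2.1
    rw [Nat.blt_eq] at h1
    have h2 := beqL_eq _ _ this.2.2.1
    refine ⟨⟨_, h1⟩, fun i => ?_⟩
    have h3 : (List.ofFn fun i => rlN (look5 (wit (n + 1)) (cd (n + 1) y)) (y i).val)[i.val]?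
        = ((List.range (n + 1)).map (dig (repc (n + 1) (look (tab (n + 1)) (cd (n + 1) y)))))[i.val]? := by
      rw [h2]
    rw [List.getElem?_ofFn, List.getElem?_map, List.getElem?_range i.isLt] at h3
    simp only [i.isLt, dite_true, Option.map_some, Option.some.injEq] at h3
    exact h3
  · have := key y hy
    simp only [Bool.and_eq_true, hcd, hmap] at this
    have h1 := Nat.eq_of_beq_eq_true this.2.2.2.1
    have h2 := Nat.eq_of_beq_eq_true this.2.2.2.2
    have h3 : ∀ v : Fin 2, codeF (List.ofFn fun i => gnN v.val (y i).val)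
        = cd (n + 1) (fun i => gn v (y i)) := fun v => hcd (fun i => gn v (y i))
    have e0 := h3 0
    have e1 := h3 1
    unfold ix
    fin_cases w
    · show look _ (cd (n + 1) fun i => gn 0 (y i)) = _
      rw [← e0]; exact h1
    · show look _ (cd (n + 1) fun i => gn 1 (y i)) = _
      rw [← e1]; exact h2

theorem good0 : Good 0 where
  g0 := by
    intro y _
    have : ix 0 y = 0 := by simp [ix, cd, tab, look]
    rw [this]; decide
  g1 := by intro y _; exact ⟨0, fun i => i.elim0⟩
  g2 := by
    intro y _ w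
    have : ∀ y : Fin 0 → Fin 10, ix 0 y = 0 := by intro y; simp [ix, cd, tab, look]
    rw [this, this]

theorem Good.wf {b : ℕ} (hb : Good b) (l : List ℕ) : ∀ y : Fin b → Fin 10, Val b y →
    Val b (fun i => Pole.wf l (y i)) ∧ ix b (fun i => Pole.wf l (y i)) = ix b y := by
  induction l with
  | nil => intro y hy; exact ⟨hy, rfl⟩
  | cons g l ih =>
    intro y hy
    obtain ⟨h1, h2⟩ := ih y hy
    by_cases hg : g = 0
    · have e : (fun i => Pole.wf (g :: l) (y i)) = fun i => Pole.gn 0 (Pole.wf l (y i)) := by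
        funext i; simp [Pole.wf, hg]
      rw [e]
      exact ⟨h1.gn 0, by rw [← h2]; exact hb.g2 _ h1 0⟩
    · have e : (fun i => Pole.wf (g :: l) (y i)) = fun i => Pole.gn 1 (Pole.wf l (y i)) := by
        funext i; simp [Pole.wf, hg]
      rw [e]
      exact ⟨h1.gn 1, by rw [← h2]; exact hb.g2 _ h1 1⟩

theorem Good.rl {b : ℕ} (hb : Good b) (w : Fin 24) (y : Fin b → Fin 10) (hy : Val b y) :
    Val b (fun i => Pole.rl w (y i)) ∧ ix b (fun i => Pole.rl w (y i)) = ix b y := by
  have e : (fun i => Pole.rl w (y i)) = fun i => Pole.wf (wordt.getD w.val []) (y i) := by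
    funext i; exact rl_wf w (y i)
  rw [e]
  exact hb.wf _ y hy

end Pool.Agent.Lib.MP_239067_co.Pole
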