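import Mathlib

/-!
Open cubic graphs (multipoles), their four-cover states and their modular flows.
-/

set_option autoImplicit false
set_option linter.all false

open Finset BigOperators

namespace Pool.Agent.Lib.MP_239067_co.Pole

/-- The ten labels: the nonempty subsets of `{0,1,2,3}` with at most two elements, as bit masks. -/
def mask : Fin 10 → ℕ := ![1, 2, 4, 8, 3, 5, 9, 6, 10, 12]

/-- Label `a` contains the matching `l`. -/
def has (a : Fin 10) (l : Fin 4) : Bool := (mask a).testBit l.1

/-- Open graphs with dangling edges indexed by `β`. -/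
structure OG (β : Type) where
  V : Type
  E : Type
  fV : Fintype V
  fE : Fintype E
  dV : DecidableEq V
  s : E → V
  t : E → V
  d : β → V

attribute [instance] OG.fV OG.fE OG.dV

variable {β : Type} [Fintype β]

/-- Sum of a weight over the edges at a vertex. -/
def OG.vs (G : OG β) {A : Type} [AddCommMonoid A] (x : G.E → A) (y : β → A) (v : G.V) : A :=
  (∑ e, if G.s e = v then x e else 0) + (∑ e, if G.t e = v then x e else 0)
    + ∑ i, if G.d i = v then y i else 0

/-- Net outflow at a vertex; `y i` is the flow leaving the vertex through the dangling edge `i`. -/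
def OG.dv (G : OG β) (x : G.E → ℤ) (y : β → ℤ) (v : G.V) : ℤ :=
  (∑ e, if G.s e = v then x e else 0) - (∑ e, if G.t e = v then x e else 0)
    + ∑ i, if G.d i = v then y i else 0

/-- Loopless and cubic. -/
def OG.Cubic (G : OG β) : Prop :=
  (∀ e, G.s e ≠ G.t e) ∧ ∀ v, G.vs (fun _ => (1 : ℕ)) (fun _ => 1) v = 3

/-- `x` is legal for the modulus `m` and the threshold `t`. -/
def Leg (m t x : ℤ) : Prop := ∃ c : ℤ, t ≤ x + c * m ∧ x + c * m ≤ m - t

/-- A flow modulo `m` with legal values and boundary values `phi`. -/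
def OG.IsFlow (G : OG β) (m t : ℤ) (phi : β → ℤ) (f : G.E → ℤ) : Prop :=
  (∀ e, Leg m t (f e)) ∧ (∀ i, Leg m t (phi i)) ∧ ∀ v, m ∣ G.dv f phi v

/-- A labelling of all edges (internal and dangling) such that every matching meets every vertex
exactly once. -/
def OG.IsLab (G : OG β) (x : G.E → Fin 10) (y : β → Fin 10) : Prop :=
  ∀ v, ∀ l : Fin 4, G.vs (fun e => if has (x e) l then (1 : ℕ) else 0)
    (fun i => if has (y i) l then (1 : ℕ) else 0) v = 1

/-- There is a multipole with a flow with boundary values `phi` such that all its labellings have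
boundary in `C`. -/
def Real (m t : ℤ) (phi : β → ℤ) (C : (β → Fin 10) → Prop) : Prop :=
  ∃ G : OG β, G.Cubic ∧ (∃ f, G.IsFlow m t phi f) ∧ ∀ x y, G.IsLab x y → C y

theorem Real.mono {m t : ℤ} {phi : β → ℤ} {C C' : (β → Fin 10) → Prop} (h : Real m t phi C)
    (hC : ∀ y, C y → C' y) : Real m t phi C' := by
  obtain ⟨G, h1, h2, h3⟩ := h
  exact ⟨G, h1, h2, fun x y hxy => hC y (h3 x y hxy)⟩

theorem Leg.neg {m t x : ℤ} (h : Leg m t x) : Leg m t (-x) := by
  obtain ⟨c, h1, h2⟩ := h
  exact ⟨1 - c, by nlinarith, by nlinarith⟩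

theorem Leg.congr {m t x y : ℤ} (h : Leg m t x) (hxy : m ∣ x - y) : Leg m t y := by
  obtain ⟨c, h1, h2⟩ := h
  obtain ⟨k, hk⟩ := hxy
  have : y = x - m * k := by omega
  subst this
  exact ⟨c + k, by nlinarith, by nlinarith⟩

theorem OG.dv_congr (G : OG β) {m : ℤ} (f : G.E → ℤ) {phi psi : β → ℤ}
    (hp : ∀ i, m ∣ phi i - psi i) (v : G.V) (h : m ∣ G.dv f phi v) : m ∣ G.dv f psi v := by
  have key : G.dv f psi v = G.dv f phi v - ∑ i, if G.d i = v then (phi i - psi i) else 0 := by
    unfold OG.dv
    have : (∑ i, if G.d i = v then (phi i - psi i) else 0)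
        = (∑ i, if G.d i = v then phi i else 0) - ∑ i, if G.d i = v then psi i else 0 := by
      rw [← Finset.sum_sub_distrib]
      refine Finset.sum_congr rfl fun i _ => ?_
      split_ifs <;> simp
    rw [this]; ring
  rw [key]
  refine dvd_sub h (Finset.dvd_sum fun i _ => ?_)
  split_ifs
  · exact hp i
  · exact dvd_zero _

/-- The flow values matter only modulo `m`. -/
theorem Real.congr {m t : ℤ} {phi psi : β → ℤ} {C : (β → Fin 10) → Prop} (h : Real m t phi C)
    (hp : ∀ i, m ∣ phi i - psi i) : Real m t psi C := by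
  obtain ⟨G, h1, ⟨f, hf1, hf2, hf3⟩, h3⟩ := h
  exact ⟨G, h1, ⟨f, hf1, fun i => (hf2 i).congr (hp i), fun v => G.dv_congr f hp v (hf3 v)⟩, h3⟩

/-- Reversal of the flow. -/
theorem Real.neg {m t : ℤ} {phi : β → ℤ} {C : (β → Fin 10) → Prop} (h : Real m t phi C) :
    Real m t (fun i => - phi i) C := by
  obtain ⟨G, h1, ⟨f, hf1, hf2, hf3⟩, h3⟩ := h
  refine ⟨G, h1, ⟨fun e => - f e, fun e => (hf1 e).neg, fun i => (hf2 i).neg, fun v => ?_⟩, h3⟩
  have key : G.dv (fun e => - f e) (fun i => - phi i) v = - G.dv f phi v := by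
    unfold OG.dv
    have a1 : (∑ e, if G.s e = v then - f e else 0) = - ∑ e, if G.s e = v then f e else 0 := by
      rw [← Finset.sum_neg_distrib]
      refine Finset.sum_congr rfl fun i _ => ?_
      split_ifs <;> simp
    have a2 : (∑ e, if G.t e = v then - f e else 0) = - ∑ e, if G.t e = v then f e else 0 := by
      rw [← Finset.sum_neg_distrib]
      refine Finset.sum_congr rfl fun i _ => ?_
      split_ifs <;> simp
    have a3 : (∑ i, if G.d i = v then - phi i else 0) = - ∑ i, if G.d i = v then phi i else 0 := by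
      rw [← Finset.sum_neg_distrib]
      refine Finset.sum_congr rfl fun i _ => ?_
      split_ifs <;> simp
    rw [a1, a2, a3]; ring
  rw [key]
  exact (dvd_neg).2 (hf3 v)

/-- Reindexing of the dangling edges. -/
theorem Real.reindex {γ : Type} [Fintype γ] {m t : ℤ} {phi : β → ℤ} {C : (β → Fin 10) → Prop}
    (h : Real m t phi C) (σ : γ ≃ β) :
    Real m t (fun i => phi (σ i)) (fun y => C (fun i => y (σ.symm i))) := by
  obtain ⟨G, ⟨hc1, hc2⟩, ⟨f, hf1, hf2, hf3⟩, h3⟩ := h
  let G' : OG γ := ⟨G.V, G.E, G.fV, G.fE, G.dV, G.s, G.t, fun i => G.d (σ i)⟩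
  have hsum : ∀ {A : Type} [AddCommMonoid A] (y : β → A) (v : G.V),
      (∑ i : γ, if G.d (σ i) = v then y (σ i) else 0) = ∑ i : β, if G.d i = v then y i else 0 := by
    intro A _ y v
    exact Equiv.sum_comp σ (fun i => if G.d i = v then y i else 0)
  refine ⟨G', ⟨hc1, fun v => ?_⟩, ⟨f, hf1, fun i => hf2 (σ i), fun v => ?_⟩, fun x y hxy => ?_⟩
  · have := hc2 v
    unfold OG.vs at this ⊢
    refine Eq.trans ?_ this
    congr 1
    exact hsum (fun _ => (1 : ℕ)) v
  · have := hf3 v
    unfold OG.dv at this ⊢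
    rw [← hsum phi v] at this
    exact this
  · refine h3 x _ fun v l => ?_
    have := hxy v l
    unfold OG.vs at this ⊢
    refine Eq.trans ?_ this
    congr 1
    have h4 := hsum (fun i => if has (y (σ.symm i)) l then (1 : ℕ) else 0) v
    simp only [Equiv.symm_apply_apply] at h4
    exact h4.symm

end Pool.Agent.Lib.MP_239067_co.Pole
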