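import Mathlib

/-!
Tutte: a flow modulo `m` with values strictly between `0` and `m` can be turned into an integer
flow by subtracting `m` on some edges.
-/

set_option autoImplicit false
set_option linter.all false

open Finset BigOperators

namespace Pool.Agent.Lib.MP_239067_co.Pole

namespace Tutte

variable {V E : Type} [Fintype V] [Fintype E] [DecidableEq V] [DecidableEq E]

/-- Net outflow. -/
def D (s t : E → V) (g : E → ℤ) (v : V) : ℤ :=
  (∑ e, if s e = v then g e else 0) - ∑ e, if t e = v then g e else 0

/-- The flow after subtracting `m` on `S`. -/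
def low (m : ℤ) (f : E → ℤ) (S : Finset E) (e : E) : ℤ := if e ∈ S then f e - m else f e

/-- Residual arcs. -/
def Arc (s t : E → V) (S : Finset E) (e : E) (u v : V) : Prop :=
  (e ∉ S ∧ s e = u ∧ t e = v) ∨ (e ∈ S ∧ t e = u ∧ s e = v)

/-- Residual walks of a given length. -/
inductive W (s t : E → V) (S : Finset E) : ℕ → V → V → Prop
  | nil (u : V) : W s t S 0 u u
  | cons (e : E) (u v w : V) (n : ℕ) : Arc s t S e u v → W s t S n v w → W s t S (n + 1) u w

theorem D_switch (s t : E → V) (m : ℤ) (f : E → ℤ) (S : Finset E) (e : E) (u v : V)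
    (h : Arc s t S e u v) (x : V) :
    D s t (low m f (symmDiff S {e})) x
      = D s t (low m f S) x - (if u = x then m else 0) + (if v = x then m else 0) := by
  have hlow : ∀ a, low m f (symmDiff S {e}) a
      = low m f S a + (if a = e then (if e ∈ S then m else -m) else 0) := by
    intro a
    unfold low
    by_cases ha : a = e
    · subst ha
      by_cases hS : a ∈ S
      · simp [hS, Finset.mem_symmDiff]
      · simp [hS, Finset.mem_symmDiff]; ring
    · simp [ha, Finset.mem_symmDiff]
  have hsum : ∀ q : E → V, (∑ a, if q a = x then low m f (symmDiff S {e}) a else 0)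
      = (∑ a, if q a = x then low m f S a else 0)
        + (if q e = x then (if e ∈ S then m else -m) else 0) := by
    intro q
    have e1 : (if q e = x then (if e ∈ S then m else -m) else 0)
        = ∑ a, if a = e then (if q a = x then (if e ∈ S then m else -m) else 0) else 0 := by
      simp
    rw [e1, ← Finset.sum_add_distrib]
    refine Finset.sum_congr rfl fun a _ => ?_
    rw [hlow a]
    by_cases ha : a = e
    · subst ha
      by_cases hq : q a = x
      · rw [if_pos hq, if_pos hq, if_pos rfl, if_pos rfl, if_pos hq]
      · rw [if_neg hq, if_neg hq, if_pos rfl, if_neg hq, add_zero]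
    · rw [if_neg ha, if_neg ha, add_zero, add_zero]
  unfold D
  rw [hsum s, hsum t]
  rcases h with ⟨h1, h2, h3⟩ | ⟨h1, h2, h3⟩
  · subst h2; subst h3
    simp only [h1, if_false]
    split_ifs <;> ring
  · subst h2; subst h3
    simp only [h1, if_true]
    split_ifs <;> ring

theorem W_switch (s t : E → V) (S : Finset E) (e : E) (u v1 : V) (h : Arc s t S e u v1)
    (n : ℕ) (v w : V) (hw : W s t S n v w) :
    W s t (symmDiff S {e}) n v w ∨ ∃ n', n' ≤ n ∧ W s t S n' u w := by
  induction hw with
  | nil a => exact Or.inl (W.nil a)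
  | cons e' a b w n harc hrest ih =>
    by_cases he : e' = e
    · subst he
      have hau : a = u := by
        rcases h with ⟨h1, h2, h3⟩ | ⟨h1, h2, h3⟩ <;>
        rcases harc with ⟨k1, k2, k3⟩ | ⟨k1, k2, k3⟩
        · rw [← k2, h2]
        · exact absurd k1 h1
        · exact absurd h1 k1
        · rw [← k2, h2]
      subst hau
      exact Or.inr ⟨n + 1, le_refl _, W.cons e' a b w n harc hrest⟩
    · rcases ih with ih | ⟨n', h1, h2⟩
      · left
        refine W.cons e' a b w n ?_ ih
        have hm : e' ∈ symmDiff S {e} ↔ e' ∈ S := by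
          simp [Finset.mem_symmDiff, he]
        unfold Arc at harc ⊢
        rw [hm]; exact harc
      · exact Or.inr ⟨n', Nat.le_succ_of_le h1, h2⟩

theorem augment (s t : E → V) (m : ℤ) (f : E → ℤ) (n : ℕ) :
    ∀ (S : Finset E) (u w : V), W s t S n u w →
      ∃ S' : Finset E, ∀ x, D s t (low m f S') x
        = D s t (low m f S) x - (if u = x then m else 0) + (if w = x then m else 0) := by
  induction n using Nat.strong_induction_on with
  | _ n ih =>
    intro S u w hw
    cases hw with
    | nil => exact ⟨S, fun x => by ring⟩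
    | cons e _ v _ n harc hrest =>
      rcases W_switch s t S e u v harc n v w hrest with h | ⟨n', h1, h2⟩
      · obtain ⟨S', hS'⟩ := ih n (Nat.lt_succ_self n) _ v w h
        refine ⟨S', fun x => ?_⟩
        rw [hS' x, D_switch s t m f S e u v harc x]
        ring
      · exact ih n' (by omega) S u w h2

/-- Tutte's lemma. -/
theorem tutte (s t : E → V) (m : ℤ) (f : E → ℤ) (h0 : ∀ e, 0 < f e) (h1 : ∀ e, f e < m)
    (hd : ∀ v, m ∣ D s t f v) :
    ∃ g : E → ℤ, (∀ e, g e = f e ∨ g e = f e - m) ∧ ∀ v, D s t g v = 0 := by
  classical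
  by_cases hE : IsEmpty E
  · exact ⟨f, fun e => Or.inl rfl, fun v => by simp [D]⟩
  have hm : 0 < m := by
    rw [not_isEmpty_iff] at hE
    obtain ⟨e⟩ := hE
    exact lt_trans (h0 e) (h1 e)
  obtain ⟨S, -, hS⟩ := Finset.exists_min_image (Finset.univ : Finset (Finset E))
    (fun S => ∑ v, |D s t (low m f S) v|) ⟨∅, Finset.mem_univ _⟩
  refine ⟨low m f S, fun e => ?_, ?_⟩
  · unfold low; split_ifs
    · exact Or.inr rfl
    · exact Or.inl rfl
  by_contra hne
  push Not at hne
  -- divisibility
  have hdiv : ∀ v, m ∣ D s t (low m f S) v := by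
    intro v
    have : D s t (low m f S) v = D s t f v
        - ((∑ e, if s e = v then (if e ∈ S then m else 0) else 0)
          - ∑ e, if t e = v then (if e ∈ S then m else 0) else 0) := by
      have hq : ∀ q : E → V, (∑ e, if q e = v then low m f S e else 0)
          = (∑ e, if q e = v then f e else 0)
            - ∑ e, if q e = v then (if e ∈ S then m else 0) else 0 := by
        intro q
        rw [← Finset.sum_sub_distrib]
        refine Finset.sum_congr rfl fun e _ => ?_
        unfold low
        split_ifs <;> ring
      unfold D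
      rw [hq s, hq t]; ring
    rw [this]
    refine dvd_sub (hd v) (dvd_sub ?_ ?_) <;>
    · refine Finset.dvd_sum fun e _ => ?_
      split_ifs
      · exact dvd_refl m
      · exact dvd_zero m
      · exact dvd_zero m
  -- the total is zero
  have htot : ∑ v, D s t (low m f S) v = 0 := by
    unfold D
    rw [Finset.sum_sub_distrib, Finset.sum_comm, Finset.sum_comm (s := Finset.univ (α := V))]
    simp
  obtain ⟨v1, hv1⟩ := hne
  obtain ⟨v0, hv0⟩ : ∃ v0, 0 < D s t (low m f S) v0 := by
    by_contra hall
    push Not at hall
    have : ∀ v ∈ (Finset.univ : Finset V), D s t (low m f S) v = 0 := by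
      rw [← Finset.sum_eq_zero_iff_of_nonpos (fun v _ => hall v)]
      exact htot
    exact hv1 (this v1 (Finset.mem_univ _))
  set X : Finset V := Finset.univ.filter (fun x => ∃ n, W s t S n v0 x) with hX
  have hstep : ∀ e u v, Arc s t S e u v → u ∈ X → v ∈ X := by
    intro e u v harc hu
    rw [hX, Finset.mem_filter] at hu ⊢
    obtain ⟨-, n, hn⟩ := hu
    refine ⟨Finset.mem_univ _, n + 1, ?_⟩
    have app : ∀ (n : ℕ) (a b : V), W s t S n a b → ∀ c, Arc s t S e b c → W s t S (n + 1) a c := by
      intro n a b hab
      induction hab with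
      | nil a => intro c hc; exact W.cons e a c c 0 hc (W.nil c)
      | cons e' a b w n h1 h2 ih => intro c hc; exact W.cons e' a b c (n + 1) h1 (ih c hc)
    exact app n v0 u hn v harc
  have hv0X : v0 ∈ X := by
    rw [hX, Finset.mem_filter]
    exact ⟨Finset.mem_univ _, 0, W.nil v0⟩
  -- the sum over X
  have hsumX : ∑ v ∈ X, D s t (low m f S) v ≤ 0 := by
    have e1 : ∑ v ∈ X, D s t (low m f S) v
        = ∑ e, ((if s e ∈ X then low m f S e else 0) - (if t e ∈ X then low m f S e else 0)) := by
      unfold D
      rw [Finset.sum_sub_distrib, Finset.sum_sub_distrib, Finset.sum_comm,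
        Finset.sum_comm (s := X)]
      congr 1 <;>
      · refine Finset.sum_congr rfl fun e _ => ?_
        rw [Finset.sum_ite_eq]
    rw [e1]
    refine Finset.sum_nonpos fun e _ => ?_
    by_cases hs : s e ∈ X <;> by_cases ht : t e ∈ X
    · simp [hs, ht]
    · have : e ∈ S := by
        by_contra he
        exact ht (hstep e (s e) (t e) (Or.inl ⟨he, rfl, rfl⟩) hs)
      simp only [hs, ht, if_true, if_false, low, this]
      have := h1 e; omega
    · have : e ∉ S := by
        intro he
        exact hs (hstep e (t e) (s e) (Or.inr ⟨he, rfl, rfl⟩) ht)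
      simp only [hs, ht, if_true, if_false, low, this]
      have := h0 e; omega
    · simp [hs, ht]
  obtain ⟨w, hwX, hw⟩ : ∃ w ∈ X, D s t (low m f S) w < 0 := by
    by_contra hall
    push Not at hall
    have h2 : 0 < ∑ v ∈ X, D s t (low m f S) v :=
      Finset.sum_pos' hall ⟨v0, hv0X, hv0⟩
    omega
  rw [hX, Finset.mem_filter] at hwX
  obtain ⟨-, n, hn⟩ := hwX
  obtain ⟨S', hS'⟩ := augment s t m f n S v0 w hn
  have hmin := hS S' (Finset.mem_univ _)
  have hlt : ∑ v, |D s t (low m f S') v| < ∑ v, |D s t (low m f S) v| := by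
    have hvw : v0 ≠ w := by
      rintro rfl; omega
    obtain ⟨a, ha⟩ := hdiv v0
    obtain ⟨b, hb⟩ := hdiv w
    have ha1 : m ≤ D s t (low m f S) v0 := by
      rw [ha] at hv0 ⊢
      have : 0 < a := by
        by_contra hh
        push Not at hh
        nlinarith
      nlinarith
    have hb1 : D s t (low m f S) w ≤ -m := by
      rw [hb] at hw ⊢
      have : b < 0 := by
        by_contra hh
        push Not at hh
        nlinarith
      nlinarith
    refine Finset.sum_lt_sum (fun x _ => ?_) ⟨v0, Finset.mem_univ _, ?_⟩
    · rw [hS' x]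
      by_cases h3 : v0 = x
      · subst h3
        have h4 : w ≠ v0 := fun h => hvw h.symm
        simp only [if_true, h4, if_false, add_zero]
        rw [abs_of_nonneg (by omega), abs_of_nonneg (by omega)]
        omega
      · by_cases h5 : w = x
        · subst h5
          simp only [h3, if_true, if_false, sub_zero]
          rw [abs_of_nonpos (by omega), abs_of_nonpos (by omega)]
          omega
        · simp only [h3, h5, if_false, sub_zero, add_zero]; exact le_refl _
    · rw [hS' v0]
      have h4 : w ≠ v0 := fun h => hvw h.symm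
      simp only [if_true, h4, if_false, add_zero]
      rw [abs_of_nonneg (by omega), abs_of_nonneg (by omega)]
      omega
  exact absurd hmin (not_le.2 hlt)

end Tutte

end Pool.Agent.Lib.MP_239067_co.Pole
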