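import Mathlib
import Pool.Agent.Lib.MP_239067_co.Pole.Final

/-!
Variant of the last step with the exact circular flow value `4 + 1/k`.
-/

set_option autoImplicit false
set_option linter.all false

open Finset BigOperators

namespace Pool.Agent.Lib.MP_239067_co.Pole

/-- Every loopless cubic multigraph with a nowhere-zero `r`-flow is covered by four perfect
matchings. -/
def QExact (r : ℝ) : Prop :=
  ∀ (n m : ℕ) (s t : Fin m → Fin n),
    (∀ e, s e ≠ t e) →
    (∀ v : Fin n,
      (Finset.univ.filter (fun e => s e = v)).card
        + (Finset.univ.filter (fun e => t e = v)).card = 3) →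
    (∃ f : Fin m → ℝ,
        (∀ e, 1 ≤ |f e| ∧ |f e| ≤ r - 1) ∧
        ∀ v : Fin n,
          ∑ e ∈ Finset.univ.filter (fun e => s e = v), f e
            = ∑ e ∈ Finset.univ.filter (fun e => t e = v), f e) →
    ∃ M : Fin 4 → Finset (Fin m),
      (∀ (i : Fin 4) (v : Fin n),
        ((M i).filter (fun e => s e = v ∨ t e = v)).card = 1) ∧
      ∀ e : Fin m, ∃ i : Fin 4, e ∈ M i

/-- Closed case, with the exact value `r = 4 + 1/k`. -/
theorem closed_contra_exact {β : Type} [Fintype β] [IsEmpty β] {k : ℕ} (hk : 1 ≤ k)
    (hQ : QExact (4 + 1 / (k : ℝ))) {phi : β → ℤ}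
    (h : Real (4 * k + 1) k phi (fun _ => False)) : False := by
  classical
  obtain ⟨G, ⟨hl, hc⟩, ⟨f, hf1, -, hf3⟩, hno⟩ := h
  -- transport to Fin
  let eV : G.V ≃ Fin (Fintype.card G.V) := Fintype.equivFin G.V
  let eE : G.E ≃ Fin (Fintype.card G.E) := Fintype.equivFin G.E
  let s' : Fin (Fintype.card G.E) → Fin (Fintype.card G.V) := fun e => eV (G.s (eE.symm e))
  let t' : Fin (Fintype.card G.E) → Fin (Fintype.card G.V) := fun e => eV (G.t (eE.symm e))
  have hloop : ∀ e, s' e ≠ t' e := by
    intro e he
    exact hl (eE.symm e) (eV.injective he)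
  have hcardq : ∀ (q : G.E → G.V) (v : Fin (Fintype.card G.V)),
      (Finset.univ.filter (fun e : Fin (Fintype.card G.E) => eV (q (eE.symm e)) = v)).card
        = ∑ e : G.E, if q e = eV.symm v then 1 else 0 := by
    intro q v
    rw [Finset.card_filter, ← Equiv.sum_comp eE]
    refine Finset.sum_congr rfl fun e _ => ?_
    simp only [Equiv.symm_apply_apply, Equiv.apply_eq_iff_eq_symm_apply]
  have hdeg : ∀ v : Fin (Fintype.card G.V),
      (Finset.univ.filter (fun e => s' e = v)).card
        + (Finset.univ.filter (fun e => t' e = v)).card = 3 := by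
    intro v
    have := hc (eV.symm v)
    unfold OG.vs at this
    rw [Fintype.sum_empty (f := fun i : β => if G.d i = eV.symm v then (1 : ℕ) else 0),
      add_zero] at this
    rw [hcardq G.s v, hcardq G.t v]
    exact this
  -- the flow
  choose c hc1 hc2 using hf1
  have hk1 : (1 : ℤ) ≤ (k : ℤ) := by exact_mod_cast hk
  have hD : ∀ v, ((4 * k + 1 : ℤ)) ∣ Tutte.D G.s G.t (fun e => f e + c e * (4 * k + 1)) v := by
    intro v
    have := hf3 v
    unfold OG.dv at this
    rw [Fintype.sum_empty (f := fun i : β => if G.d i = v then phi i else 0), add_zero] at this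
    have hq : ∀ q : G.E → G.V, (∑ e, if q e = v then f e + c e * (4 * (k : ℤ) + 1) else 0)
        = (∑ e, if q e = v then f e else 0)
          + (∑ e, if q e = v then c e else 0) * (4 * k + 1) := by
      intro q
      rw [Finset.sum_mul, ← Finset.sum_add_distrib]
      refine Finset.sum_congr rfl fun e _ => ?_
      split_ifs <;> ring
    unfold Tutte.D
    rw [hq G.s, hq G.t]
    have e2 : (∑ e, if G.s e = v then f e else 0) + (∑ e, if G.s e = v then c e else 0) * (4 * (k : ℤ) + 1)
        - ((∑ e, if G.t e = v then f e else 0) + (∑ e, if G.t e = v then c e else 0) * (4 * (k : ℤ) + 1))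
        = ((∑ e, if G.s e = v then f e else 0) - (∑ e, if G.t e = v then f e else 0))
          + ((∑ e, if G.s e = v then c e else 0) - (∑ e, if G.t e = v then c e else 0)) * (4 * (k : ℤ) + 1) := by
      ring
    rw [e2]
    exact dvd_add this (dvd_mul_left _ _)
  obtain ⟨g, hg1, hg2⟩ := Tutte.tutte G.s G.t (4 * k + 1) (fun e => f e + c e * (4 * k + 1))
    (fun e => by have := hc1 e; omega) (fun e => by have := hc2 e; omega) hD
  have hg3 : ∀ e, (k : ℤ) ≤ |g e| ∧ |g e| ≤ 3 * k + 1 := by
    intro e
    have h1 := hc1 e
    have h2 := hc2 e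
    rcases hg1 e with h | h
    · rw [h, abs_of_nonneg (by omega)]
      omega
    · rw [h, abs_of_nonpos (by omega)]
      omega
  have hkR : (0 : ℝ) < (k : ℝ) := by exact_mod_cast hk
  have hflow : ∃ f : Fin (Fintype.card G.E) → ℝ,
        (∀ e, 1 ≤ |f e| ∧ |f e| ≤ (4 + 1 / (k : ℝ)) - 1) ∧
        ∀ v : Fin (Fintype.card G.V),
          ∑ e ∈ Finset.univ.filter (fun e => s' e = v), f e
            = ∑ e ∈ Finset.univ.filter (fun e => t' e = v), f e := by
    refine ⟨fun e => (g (eE.symm e) : ℝ) / k, ?_, ?_⟩
    · intro e
      have h1 := hg3 (eE.symm e)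
      have h2 : (k : ℝ) ≤ |(g (eE.symm e) : ℝ)| := by
        have := h1.1
        rw [← Int.cast_abs]
        exact_mod_cast this
      have h3 : |(g (eE.symm e) : ℝ)| ≤ 3 * k + 1 := by
        have := h1.2
        rw [← Int.cast_abs]
        exact_mod_cast this
      rw [abs_div, abs_of_pos hkR]
      constructor
      · rw [le_div_iff₀ hkR]; linarith
      · rw [div_le_iff₀ hkR]
        have : (4 + 1 / (k : ℝ) - 1) * k = 3 * k + 1 := by field_simp; ring
        rw [this]; exact h3
    · intro v
      have h1 := hg2 (eV.symm v)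
      unfold Tutte.D at h1
      have hq : ∀ q : G.E → G.V,
          ∑ e ∈ Finset.univ.filter (fun e => eV (q (eE.symm e)) = v), (g (eE.symm e) : ℝ) / k
            = ((∑ e, if q e = eV.symm v then g e else 0 : ℤ) : ℝ) / k := by
        intro q
        rw [Finset.sum_filter, ← Equiv.sum_comp eE]
        push_cast
        rw [Finset.sum_div]
        refine Finset.sum_congr rfl fun e _ => ?_
        simp only [Equiv.symm_apply_apply, Equiv.apply_eq_iff_eq_symm_apply]
        split_ifs <;> simp
      rw [hq G.s, hq G.t]
      have : (∑ e, if G.s e = eV.symm v then g e else 0 : ℤ)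
          = ∑ e, if G.t e = eV.symm v then g e else 0 := by omega
      rw [this]
  obtain ⟨M, hM1, hM2⟩ := hQ _ _ s' t' hloop hdeg hflow
  · -- contradiction from the cover
    let L : G.E → Finset (Fin 4) := fun e => Finset.univ.filter (fun i => eE e ∈ M i)
    have hL1 : ∀ e, 1 ≤ (L e).card := by
      intro e
      obtain ⟨i, hi⟩ := hM2 (eE e)
      exact Finset.card_pos.2 ⟨i, by simp [L, hi]⟩
    -- each matching meets each vertex exactly once
    have hM3 : ∀ (i : Fin 4) (v : G.V),
        (∑ e, if G.s e = v then (if i ∈ L e then 1 else 0) else 0)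
          + (∑ e, if G.t e = v then (if i ∈ L e then 1 else 0) else 0) = 1 := by
      intro i v
      refine Eq.trans ?_ (hM1 i (eV v))
      have e0 : ((M i).filter (fun e => s' e = eV v ∨ t' e = eV v)).card
          = ∑ e : G.E, if (eE e ∈ M i ∧ (G.s e = v ∨ G.t e = v)) then 1 else 0 := by
        have : (M i).filter (fun e => s' e = eV v ∨ t' e = eV v)
            = Finset.univ.filter (fun e => e ∈ M i ∧ (s' e = eV v ∨ t' e = eV v)) := by
          ext e; simp
        rw [this, Finset.card_filter, ← Equiv.sum_comp eE]
        refine Finset.sum_congr rfl fun e _ => ?_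
        simp only [s', t', Equiv.symm_apply_apply, EmbeddingLike.apply_eq_iff_eq]
      rw [e0, ← Finset.sum_add_distrib]
      refine Finset.sum_congr rfl fun e _ => ?_
      have hne := hl e
      by_cases h1 : G.s e = v
      · have h2 : G.t e ≠ v := fun h => hne (h1.trans h.symm)
        by_cases h3 : eE e ∈ M i <;> simp [L, h1, h2, h3]
      · by_cases h2 : G.t e = v
        · by_cases h3 : eE e ∈ M i <;> simp [L, h1, h2, h3]
        · simp [h1, h2]
    have hc' : ∀ v : G.V, (∑ e, if G.s e = v then 1 else 0) + (∑ e, if G.t e = v then 1 else 0) = 3 := by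
      intro v
      have := hc v
      unfold OG.vs at this
      rwa [Fintype.sum_empty (f := fun i : β => if G.d i = v then (1 : ℕ) else 0), add_zero] at this
    have hL2 : ∀ e, (L e).card ≤ 2 := by
      intro e0
      set v := G.s e0 with hv
      have htot : (∑ e, if G.s e = v then (L e).card else 0)
          + (∑ e, if G.t e = v then (L e).card else 0) = 4 := by
        have e3 : ∀ q : G.E → G.V, (∑ e, if q e = v then (L e).card else 0)
            = ∑ i : Fin 4, ∑ e, if q e = v then (if i ∈ L e then 1 else 0) else 0 := by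
          intro q
          rw [Finset.sum_comm]
          refine Finset.sum_congr rfl fun e _ => ?_
          split_ifs
          · rw [Finset.card_eq_sum_ones, ← Finset.sum_filter]
            congr 1
            ext i; simp
          · simp
        rw [e3 G.s, e3 G.t, ← Finset.sum_add_distrib]
        rw [Finset.sum_congr rfl (fun i _ => hM3 i v)]
        simp
      have h3 := hc' v
      have e4 : (∑ e, if G.s e = v then (L e).card else 0)
          = (∑ e, if G.s e = v then 1 else 0) + ∑ e, if G.s e = v then ((L e).card - 1) else 0 := by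
        rw [← Finset.sum_add_distrib]
        refine Finset.sum_congr rfl fun e _ => ?_
        have := hL1 e
        split_ifs <;> omega
      have e5 : (∑ e, if G.t e = v then (L e).card else 0)
          = (∑ e, if G.t e = v then 1 else 0) + ∑ e, if G.t e = v then ((L e).card - 1) else 0 := by
        rw [← Finset.sum_add_distrib]
        refine Finset.sum_congr rfl fun e _ => ?_
        have := hL1 e
        split_ifs <;> omega
      have e6 : (L e0).card - 1 ≤ ∑ e, if G.s e = v then ((L e).card - 1) else 0 := by
        have := Finset.single_le_sum (f := fun e => if G.s e = v then ((L e).card - 1) else 0)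
          (fun e _ => Nat.zero_le _) (Finset.mem_univ e0)
        simpa [hv] using this
      omega
    have hlab : ∀ e, ∃ a : Fin 10, ∀ l : Fin 4, has a l = true ↔ l ∈ L e :=
      fun e => exists_label (L e) (hL1 e) (hL2 e)
    choose x hx using hlab
    refine hno x (fun i => isEmptyElim i) fun v l => ?_
    unfold OG.vs
    rw [Finset.univ_eq_empty (α := β), Finset.sum_empty, add_zero]
    refine Eq.trans ?_ (hM3 l v)
    congr 1 <;>
    · refine Finset.sum_congr rfl fun e _ => ?_
      have := hx e l
      by_cases h1 : has (x e) l = true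
      · simp [h1, this.1 h1]
      · have h2 : l ∉ L e := fun h => h1 (this.2 h)
        simp [h1, h2]

end Pool.Agent.Lib.MP_239067_co.Pole
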