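import Mathlib
import Pool.Agent.Lib.MP_239067_co.Pole.Check

/-!
Kernel verification of the orbit tables.
-/

set_option autoImplicit false
set_option linter.all false

namespace Pool.Agent.Lib.MP_239067_co.Pole

set_option maxRecDepth 100000 in
theorem chkT2 : chkT 2 = true := by decide +kernel

set_option maxRecDepth 100000 in
theorem chkT3 : chkT 3 = true := by decide +kernel

set_option maxRecDepth 100000 in
theorem chkT4 : chkT 4 = true := by decide +kernel

set_option maxRecDepth 100000 in
theorem chkT5 : chkT 5 = true := by decide +kernel

/-- numbers of dangling edges covered by the tables -/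
def okb (b : ℕ) : Bool :=
  Nat.beq b 0 || (Nat.beq b 2 || (Nat.beq b 3 || (Nat.beq b 4 || Nat.beq b 5)))

theorem good_okb (b : ℕ) (h : okb b = true) : Good b := by
  unfold okb at h
  simp only [Bool.or_eq_true] at h
  rcases h with h | h | h | h | h <;> rw [Nat.eq_of_beq_eq_true h]
  · exact good0
  · exact good_of 1 chkT2
  · exact good_of 2 chkT3
  · exact good_of 3 chkT4
  · exact good_of 4 chkT5

end Pool.Agent.Lib.MP_239067_co.Pole
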