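import Mathlib
import Pool.Agent.Lib.MP_239067_co.Pole.Defs

/-!
Gluing two multipoles along dangling edges; the single vertex; disjoint union.
-/

set_option autoImplicit false
set_option linter.all false

open Finset BigOperators

namespace Pool.Agent.Lib.MP_239067_co.Pole

variable {J A B : Type} [Fintype J] [Fintype A] [Fintype B]

/-- Gluing the dangling edges `J` of two graphs. -/
def glue (G : OG (J ⊕ A)) (H : OG (J ⊕ B)) : OG (A ⊕ B) where
  V := G.V ⊕ H.V
  E := (G.E ⊕ H.E) ⊕ J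
  fV := inferInstance
  fE := inferInstance
  dV := inferInstance
  s := Sum.elim (Sum.elim (fun e => Sum.inl (G.s e)) (fun e => Sum.inr (H.s e)))
    (fun j => Sum.inl (G.d (Sum.inl j)))
  t := Sum.elim (Sum.elim (fun e => Sum.inl (G.t e)) (fun e => Sum.inr (H.t e)))
    (fun j => Sum.inr (H.d (Sum.inl j)))
  d := Sum.elim (fun a => Sum.inl (G.d (Sum.inr a))) (fun b => Sum.inr (H.d (Sum.inr b)))

theorem glue_sum (G : OG (J ⊕ A)) (H : OG (J ⊕ B)) {M : Type} [AddCommMonoid M]
    (F : (glue G H).E → M) :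
    (∑ e, F e) = ((∑ e : G.E, F (Sum.inl (Sum.inl e))) + ∑ e : H.E, F (Sum.inl (Sum.inr e)))
      + ∑ j : J, F (Sum.inr j) := by
  have h : (∑ e : (G.E ⊕ H.E) ⊕ J, F e) = (∑ e : G.E ⊕ H.E, F (Sum.inl e))
      + ∑ j : J, F (Sum.inr j) := Fintype.sum_sum_type _
  have h2 : (∑ e : G.E ⊕ H.E, F (Sum.inl e)) = (∑ e : G.E, F (Sum.inl (Sum.inl e)))
      + ∑ e : H.E, F (Sum.inl (Sum.inr e)) := Fintype.sum_sum_type _
  rw [← h2]
  exact h

theorem glue_vs_inl (G : OG (J ⊕ A)) (H : OG (J ⊕ B)) {M : Type} [AddCommMonoid M]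
    (x : (glue G H).E → M) (y : A ⊕ B → M) (v : G.V) :
    (glue G H).vs x y (Sum.inl v) = G.vs (fun e => x (Sum.inl (Sum.inl e)))
      (Sum.elim (fun j => x (Sum.inr j)) (fun a => y (Sum.inl a))) v := by
  unfold OG.vs
  rw [glue_sum, glue_sum, Fintype.sum_sum_type, Fintype.sum_sum_type]
  simp only [glue, Sum.elim_inl, Sum.elim_inr, Sum.inl.injEq,
    reduceCtorEq, if_false, Finset.sum_const_zero, add_zero]
  abel

theorem glue_vs_inr (G : OG (J ⊕ A)) (H : OG (J ⊕ B)) {M : Type} [AddCommMonoid M]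
    (x : (glue G H).E → M) (y : A ⊕ B → M) (v : H.V) :
    (glue G H).vs x y (Sum.inr v) = H.vs (fun e => x (Sum.inl (Sum.inr e)))
      (Sum.elim (fun j => x (Sum.inr j)) (fun a => y (Sum.inr a))) v := by
  unfold OG.vs
  rw [glue_sum, glue_sum, Fintype.sum_sum_type, Fintype.sum_sum_type]
  simp only [glue, Sum.elim_inl, Sum.elim_inr, Sum.inr.injEq,
    reduceCtorEq, if_false, Finset.sum_const_zero, add_zero, zero_add]
  abel

theorem glue_dv_inl (G : OG (J ⊕ A)) (H : OG (J ⊕ B))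
    (x : (glue G H).E → ℤ) (y : A ⊕ B → ℤ) (v : G.V) :
    (glue G H).dv x y (Sum.inl v) = G.dv (fun e => x (Sum.inl (Sum.inl e)))
      (Sum.elim (fun j => x (Sum.inr j)) (fun a => y (Sum.inl a))) v := by
  unfold OG.dv
  rw [glue_sum, glue_sum, Fintype.sum_sum_type, Fintype.sum_sum_type]
  simp only [glue, Sum.elim_inl, Sum.elim_inr, Sum.inl.injEq,
    reduceCtorEq, if_false, Finset.sum_const_zero, add_zero]
  ring

theorem glue_dv_inr (G : OG (J ⊕ A)) (H : OG (J ⊕ B))
    (x : (glue G H).E → ℤ) (y : A ⊕ B → ℤ) (v : H.V) :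
    (glue G H).dv x y (Sum.inr v) = H.dv (fun e => x (Sum.inl (Sum.inr e)))
      (Sum.elim (fun j => - x (Sum.inr j)) (fun a => y (Sum.inr a))) v := by
  have h : ∀ j : J, (if H.d (Sum.inl j) = v then - x (Sum.inr j) else 0)
      = - (if H.d (Sum.inl j) = v then x (Sum.inr j) else 0) := by
    intro j; split_ifs <;> simp
  unfold OG.dv
  rw [glue_sum, glue_sum, Fintype.sum_sum_type, Fintype.sum_sum_type]
  simp only [glue, Sum.elim_inl, Sum.elim_inr, Sum.inr.injEq,
    reduceCtorEq, if_false, Finset.sum_const_zero, add_zero, zero_add, h, Finset.sum_neg_distrib]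
  ring

/-- The join rule. -/
theorem Real.join {m t : ℤ} {p : J ⊕ A → ℤ} {q : J ⊕ B → ℤ} {C : (J ⊕ A → Fin 10) → Prop}
    {D : (J ⊕ B → Fin 10) → Prop} (hG : Real m t p C) (hH : Real m t q D)
    (hJ : ∀ j, m ∣ p (Sum.inl j) + q (Sum.inl j)) :
    Real m t (Sum.elim (fun a => p (Sum.inr a)) (fun b => q (Sum.inr b)))
      (fun y => ∃ z : J → Fin 10, C (Sum.elim z (fun a => y (Sum.inl a)))
        ∧ D (Sum.elim z (fun b => y (Sum.inr b)))) := by
  obtain ⟨G, ⟨g1, g2⟩, ⟨f, f1, f2, f3⟩, g3⟩ := hG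
  obtain ⟨H, ⟨h1, h2⟩, ⟨k, k1, k2, k3⟩, h3⟩ := hH
  refine ⟨glue G H, ⟨?_, ?_⟩, ⟨Sum.elim (Sum.elim f k) (fun j => p (Sum.inl j)), ?_, ?_, ?_⟩, ?_⟩
  · rintro ((e | e) | j)
    · intro h; exact g1 e (Sum.inl.inj h)
    · intro h; exact h1 e (Sum.inr.inj h)
    · intro h; cases h
  · rintro (v | v)
    · rw [glue_vs_inl, ← g2 v]
      congr 1
      funext i; rcases i with j | a <;> rfl
    · rw [glue_vs_inr, ← h2 v]
      congr 1
      funext i; rcases i with j | a <;> rfl
  · rintro ((e | e) | j)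
    · exact f1 e
    · exact k1 e
    · exact f2 (Sum.inl j)
  · rintro (a | b)
    · exact f2 (Sum.inr a)
    · exact k2 (Sum.inr b)
  · rintro (v | v)
    · rw [glue_dv_inl]
      refine G.dv_congr f (phi := p) ?_ v (f3 v)
      rintro (j | a) <;> simp
    · rw [glue_dv_inr]
      refine H.dv_congr k (phi := q) ?_ v (k3 v)
      rintro (j | b)
      · have := hJ j
        simp only [Sum.elim_inl, Sum.elim_inr, sub_neg_eq_add]
        rw [add_comm]; exact this
      · simp
  · intro x y hxy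
    refine ⟨fun j => x (Sum.inr j), g3 (fun e => x (Sum.inl (Sum.inl e))) _ fun v l => ?_,
      h3 (fun e => x (Sum.inl (Sum.inr e))) _ fun v l => ?_⟩
    · have := hxy (Sum.inl v) l
      rw [glue_vs_inl] at this
      refine Eq.trans ?_ this
      congr 1
      funext i; rcases i with j | a <;> rfl
    · have := hxy (Sum.inr v) l
      rw [glue_vs_inr] at this
      refine Eq.trans ?_ this
      congr 1
      funext i; rcases i with j | a <;> rfl

/-- The single vertex with its three dangling edges. -/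
theorem Real.vertex {m t : ℤ} (p : Fin 3 → ℤ) (hp : ∀ i, Leg m t (p i))
    (hs : m ∣ p 0 + p 1 + p 2) :
    Real m t p (fun y => ∀ l : Fin 4,
      ((if has (y 0) l then 1 else 0) + (if has (y 1) l then 1 else 0)
        + (if has (y 2) l then (1 : ℕ) else 0)) = 1) := by
  let G : OG (Fin 3) := ⟨Unit, Empty, inferInstance, inferInstance, inferInstance,
    fun e => e.elim, fun e => e.elim, fun _ => ()⟩
  refine ⟨G, ⟨fun e => e.elim, fun v => ?_⟩, ⟨fun e => e.elim, fun e => e.elim, hp, fun v => ?_⟩,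
    fun x y hxy l => ?_⟩
  · simp [OG.vs, G]
  · have e1 : G.dv (fun e => e.elim) p v = p 0 + p 1 + p 2 := by
      simp [OG.dv, G, Fin.sum_univ_three]
    rw [e1]; exact hs
  · have h5 := hxy () l
    have e2 : G.vs (fun e => if has (x e) l then (1 : ℕ) else 0)
        (fun i => if has (y i) l then (1 : ℕ) else 0) ()
        = (if has (y 0) l then 1 else 0) + (if has (y 1) l then 1 else 0)
          + (if has (y 2) l then (1 : ℕ) else 0) := by
      haveI : IsEmpty G.E := inferInstanceAs (IsEmpty Empty)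
      unfold OG.vs
      rw [Finset.univ_eq_empty (α := G.E), Finset.sum_empty, Fin.sum_univ_three]
      simp [G]
    rw [← e2]; exact h5

end Pool.Agent.Lib.MP_239067_co.Pole
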