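import Mathlib
import Pool.Agent.Lib.MP_239067_co.Pole.Good

/-!
The join rule as a kernel computation.
-/

set_option autoImplicit false
set_option linter.all false

open Finset BigOperators

namespace Pool.Agent.Lib.MP_239067_co.Pole

/-! ### enumeration of the states of the second pole -/

/-- implication of memberships -/
def tst (T2 C2 TR CR c2 cR : ℕ) : Bool := !(tb C2 (look T2 c2)) || tb CR (look TR cR)

/-- loop over the labels of the kept dangling edges of the second pole -/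
def loop (T2 C2 TR CR : ℕ) : List (ℕ × ℕ) → ℕ → ℕ → ℕ → Bool
  | [], c2, cR, x => !(Nat.beq (Nat.mod x 16) 0) || tst T2 C2 TR CR c2 cR
  | [p], c2, cR, x => Nat.beq (inv x) 15 ||
      tst T2 C2 TR CR (Nat.add c2 (Nat.mul p.1 (inv x))) (Nat.add cR (Nat.mul p.2 (inv x)))
  | p :: q :: ps, c2, cR, x => all10 (fun a =>
      loop T2 C2 TR CR (q :: ps) (Nat.add c2 (Nat.mul p.1 a)) (Nat.add cR (Nat.mul p.2 a))
        (Nat.xor x (mk a)))

theorem zero_aux : ∀ x : Fin 16, (∀ c : Fin 4, PV x.val c = 0) → x.val = 0 := by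
  decide +kernel

theorem mod_eq_zero (x : ℕ) (h : ∀ c : Fin 4, PV x c = 0) : Nat.mod x 16 = 0 :=
  zero_aux ⟨x % 16, Nat.mod_lt _ (by norm_num)⟩ (fun c => by rw [PV_mod]; exact h c)

theorem loop_sound (T2 C2 TR CR : ℕ) : ∀ (ps : List (ℕ × ℕ)) (c2 cR x : ℕ),
    loop T2 C2 TR CR ps c2 cR x = true → ∀ u : Fin ps.length → Fin 10,
      (∀ c : Fin 4, PV x c = ∑ j, PV (mk (u j).val) c) →
      tst T2 C2 TR CR (c2 + ∑ j : Fin ps.length, (ps[j]).1 * (u j).val)
        (cR + ∑ j : Fin ps.length, (ps[j]).2 * (u j).val) = true := by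
  intro ps
  induction ps with
  | nil =>
    intro c2 cR x h u hu
    have h1 : Nat.mod x 16 = 0 := mod_eq_zero x (fun c => by rw [hu c]; rfl)
    unfold loop at h
    rw [h1] at h
    have h2 : Nat.beq 0 0 = true := rfl
    rw [h2] at h
    have e1 : (∑ j : Fin ([] : List (ℕ × ℕ)).length, (([] : List (ℕ × ℕ))[j]).1 * (u j).val) = 0 :=
      rfl
    have e2 : (∑ j : Fin ([] : List (ℕ × ℕ)).length, (([] : List (ℕ × ℕ))[j]).2 * (u j).val) = 0 :=
      rfl
    rw [e1, e2]
    simpa using h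
  | cons p ps ih =>
    intro c2 cR x h u hu
    cases ps with
    | nil =>
      have h1 : inv x = (u 0).val := inv_eq x (u 0) (fun c => by
        rw [hu c]
        show ∑ j : Fin 1, PV (mk (u j).val) c = _
        rw [Fin.sum_univ_one])
      unfold loop at h
      rw [h1] at h
      have h2 : Nat.beq (u 0).val 15 = false := by
        have h3 := (u 0).isLt
        cases hb : Nat.beq (u 0).val 15 with
        | false => rfl
        | true =>
          have := Nat.eq_of_beq_eq_true hb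
          omega
      rw [h2, Bool.false_or] at h
      have e1 : (∑ j : Fin [p].length, ([p][j]).1 * (u j).val) = p.1 * (u 0).val := by
        show (∑ j : Fin 1, _) = _
        rw [Fin.sum_univ_one]; rfl
      have e2 : (∑ j : Fin [p].length, ([p][j]).2 * (u j).val) = p.2 * (u 0).val := by
        show (∑ j : Fin 1, _) = _
        rw [Fin.sum_univ_one]; rfl
      rw [e1, e2]
      exact h
    | cons q ps =>
      unfold loop at h
      have h1 := all10_iff _ h (u 0)
      have h2 := ih _ _ _ h1 (fun j => u j.succ) (fun c => by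
        rw [PV_xor, hu c]
        have e : (∑ j : Fin (p :: q :: ps).length, PV (mk (u j).val) c)
            = PV (mk (u 0).val) c + ∑ j : Fin (q :: ps).length, PV (mk (u j.succ).val) c :=
          Fin.sum_univ_succ (n := (q :: ps).length) (fun j => PV (mk (u j).val) c)
        rw [e]
        have : ∀ a b : ZMod 2, a + b + a = b := by decide
        exact this _ _)
      have e1 : (∑ j : Fin (p :: q :: ps).length, ((p :: q :: ps)[j]).1 * (u j).val)
          = p.1 * (u 0).val + ∑ j : Fin (q :: ps).length, ((q :: ps)[j]).1 * (u j.succ).val :=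
        Fin.sum_univ_succ (n := (q :: ps).length)
          (fun j : Fin ((q :: ps).length + 1) => ((p :: q :: ps)[j]).1 * (u j).val)
      have e2 : (∑ j : Fin (p :: q :: ps).length, ((p :: q :: ps)[j]).2 * (u j).val)
          = p.2 * (u 0).val + ∑ j : Fin (q :: ps).length, ((q :: ps)[j]).2 * (u j.succ).val :=
        Fin.sum_univ_succ (n := (q :: ps).length)
          (fun j : Fin ((q :: ps).length + 1) => ((p :: q :: ps)[j]).2 * (u j).val)
      rw [e1, e2, ← add_assoc, ← add_assoc]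
      exact h2

/-! ### positions -/

/-- `g1` on `L1` and `g2` on `L2` together list the numbers below `b` once each -/
def isP (b : ℕ) (L1 L2 : List (ℕ × ℕ)) (g1 g2 : ℕ × ℕ → ℕ) : Bool :=
  Nat.beq (L1.length + L2.length) b && (L1.all (fun p => Nat.blt (g1 p) b) &&
    (L2.all (fun p => Nat.blt (g2 p) b) &&
      (List.range b).all (fun i => L1.any (fun p => Nat.beq (g1 p) i)
        || L2.any (fun p => Nat.beq (g2 p) i))))

theorem exists_equiv (b : ℕ) (L1 L2 : List (ℕ × ℕ)) (g1 g2 : ℕ × ℕ → ℕ)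
    (h : isP b L1 L2 g1 g2 = true) :
    ∃ e : Fin L1.length ⊕ Fin L2.length ≃ Fin b,
      (∀ j, (e (Sum.inl j)).val = g1 L1[j]) ∧ ∀ j, (e (Sum.inr j)).val = g2 L2[j] := by
  unfold isP at h
  simp only [Bool.and_eq_true, List.all_eq_true, Nat.blt_eq, List.mem_range, Bool.or_eq_true,
    List.any_eq_true] at h
  obtain ⟨h1, h2, h3, h4⟩ := h
  have h1' := Nat.eq_of_beq_eq_true h1
  let f : Fin L1.length ⊕ Fin L2.length → Fin b := Sum.elim
    (fun j => ⟨g1 L1[j], h2 _ (List.getElem_mem _)⟩) (fun j => ⟨g2 L2[j], h3 _ (List.getElem_mem _)⟩)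
  have hs : Function.Surjective f := by
    intro i
    rcases h4 i.val i.isLt with ⟨p, hp1, hp2⟩ | ⟨p, hp1, hp2⟩
    · obtain ⟨j, hj, hj2⟩ := List.getElem_of_mem hp1
      refine ⟨Sum.inl ⟨j, hj⟩, Fin.ext ?_⟩
      show g1 L1[j] = i.val
      rw [hj2]; exact Nat.eq_of_beq_eq_true hp2
    · obtain ⟨j, hj, hj2⟩ := List.getElem_of_mem hp1
      refine ⟨Sum.inr ⟨j, hj⟩, Fin.ext ?_⟩
      show g2 L2[j] = i.val
      rw [hj2]; exact Nat.eq_of_beq_eq_true hp2
  have hb : Function.Bijective f := by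
    rw [Fintype.bijective_iff_surjective_and_card]
    refine ⟨hs, ?_⟩
    rw [Fintype.card_sum, Fintype.card_fin, Fintype.card_fin, Fintype.card_fin]
    exact h1'
  exact ⟨Equiv.ofBijective f hb, fun j => rfl, fun j => rfl⟩

/-! ### the relation check -/

/-- check for one representative -/
def chk1 (b2 b C2 C : ℕ) (mm ra rb : List (ℕ × ℕ)) (r : ℕ) : Bool :=
  loop (tab b2) C2 (tab b) C (rb.map (fun p => (wt b2 p.1, wt b p.2)))
    ((mm.map (fun p => Nat.mul (wt b2 p.2) (dig r p.1))).sum)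
    ((ra.map (fun p => Nat.mul (wt b p.2) (dig r p.1))).sum)
    (mm.foldr (fun p acc => Nat.xor acc (mk (dig r p.1))) (parb b2))

/-- check of the relations of a join: `mm` shared positions, `ra`, `rb` kept positions with their
positions in the result -/
def chkC (b1 b2 b C1 C2 C : ℕ) (mm ra rb : List (ℕ × ℕ)) : Bool :=
  isP b1 mm ra Prod.fst Prod.fst && (isP b2 mm rb Prod.snd Prod.fst &&
    (isP b ra rb Prod.snd Prod.snd && (okb b1 && (okb b2 && (okb b &&
      (List.range (norb b1)).all (fun i => !(tb C1 i) || chk1 b2 b C2 C mm ra rb (repc b1 i)))))))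

theorem PV_foldr (mm : List (ℕ × ℕ)) (f : ℕ × ℕ → ℕ) (x : ℕ) (c : Fin 4) :
    PV (mm.foldr (fun p acc => Nat.xor acc (f p)) x) c = PV x c + ∑ j : Fin mm.length, PV (f mm[j]) c := by
  induction mm with
  | nil => simp
  | cons p mm ih =>
    rw [List.foldr_cons, PV_xor, ih]
    have e : (∑ j : Fin (p :: mm).length, PV (f (p :: mm)[j]) c)
        = PV (f p) c + ∑ j : Fin mm.length, PV (f mm[j]) c :=
      Fin.sum_univ_succ (n := mm.length) (fun j : Fin (mm.length + 1) => PV (f (p :: mm)[j]) c)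
    rw [e]; ring

theorem sum_map_cast (rb : List (ℕ × ℕ)) (f : ℕ × ℕ → ℕ × ℕ) (g : ℕ × ℕ → ℕ)
    (u : Fin rb.length → ℕ) :
    (∑ j : Fin (rb.map f).length, g ((rb.map f)[j]) * u (Fin.cast (List.length_map ..) j))
      = ∑ j : Fin rb.length, g (f rb[j]) * u j :=
  Fintype.sum_equiv (finCongr (List.length_map ..)) _ _ (fun j => by simp)

theorem core {b1 b2 b C1 C2 C : ℕ} {mm ra rb : List (ℕ × ℕ)}
    (G1 : Good b1) (G2 : Good b2) (G : Good b)
    (h : ∀ i < norb b1, tb C1 i = true → chk1 b2 b C2 C mm ra rb (repc b1 i) = true)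
    (E1 : Fin mm.length ⊕ Fin ra.length ≃ Fin b1) (E2 : Fin mm.length ⊕ Fin rb.length ≃ Fin b2)
    (E : Fin ra.length ⊕ Fin rb.length ≃ Fin b)
    (a1 : ∀ j, (E1 (Sum.inl j)).val = (mm[j]).1) (a2 : ∀ j, (E1 (Sum.inr j)).val = (ra[j]).1)
    (a3 : ∀ j, (E2 (Sum.inl j)).val = (mm[j]).2) (a4 : ∀ j, (E2 (Sum.inr j)).val = (rb[j]).1)
    (a5 : ∀ j, (E (Sum.inl j)).val = (ra[j]).2) (a6 : ∀ j, (E (Sum.inr j)).val = (rb[j]).2)
    (z : Fin mm.length → Fin 10) (y : Fin b → Fin 10)
    (h1 : Cs b1 C1 (fun i => Sum.elim z (fun j => y (E (Sum.inl j))) (E1.symm i)))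
    (h2 : Cs b2 C2 (fun i => Sum.elim z (fun j => y (E (Sum.inr j))) (E2.symm i))) :
    Cs b C y := by
  obtain ⟨v1, t1⟩ := h1
  obtain ⟨v2, t2⟩ := h2
  have sum1 : ∀ {M : Type} [AddCommMonoid M] (F : Fin b1 → M), (∑ i, F i)
      = (∑ j, F (E1 (Sum.inl j))) + ∑ j, F (E1 (Sum.inr j)) := by
    intro M _ F; rw [← Equiv.sum_comp E1, Fintype.sum_sum_type]
  have sum2 : ∀ {M : Type} [AddCommMonoid M] (F : Fin b2 → M), (∑ i, F i)
      = (∑ j, F (E2 (Sum.inl j))) + ∑ j, F (E2 (Sum.inr j)) := by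
    intro M _ F; rw [← Equiv.sum_comp E2, Fintype.sum_sum_type]
  have sum3 : ∀ {M : Type} [AddCommMonoid M] (F : Fin b → M), (∑ i, F i)
      = (∑ j, F (E (Sum.inl j))) + ∑ j, F (E (Sum.inr j)) := by
    intro M _ F; rw [← Equiv.sum_comp E, Fintype.sum_sum_type]
  -- parity of y
  have vy : Val b y := by
    intro c
    have p1 := v1 c
    have p2 := v2 c
    rw [sum1] at p1
    rw [sum2] at p2
    simp only [Equiv.symm_apply_apply, Sum.elim_inl, Sum.elim_inr] at p1 p2
    rw [sum3]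
    have c1 := Fintype.card_congr E1
    have c2 := Fintype.card_congr E2
    have c3 := Fintype.card_congr E
    simp only [Fintype.card_sum, Fintype.card_fin] at c1 c2 c3
    have c4 : ((b : ℕ) : ZMod 2) = (b1 : ZMod 2) + (b2 : ZMod 2) := by
      have : b1 + b2 = b + 2 * mm.length := by omega
      have h5 : ((b1 + b2 : ℕ) : ZMod 2) = ((b + 2 * mm.length : ℕ) : ZMod 2) := by rw [this]
      push_cast at h5
      have h6 : (2 : ZMod 2) = 0 := by decide
      rw [h6] at h5
      simpa using h5.symm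
    rw [c4, ← p1, ← p2]
    have : ∀ a b c : ZMod 2, b + c = (a + b) + (a + c) := by decide
    exact this _ _ _
  obtain ⟨w, hw⟩ := G1.g1 _ v1
  have hlt := G1.g0 _ v1
  have hc := h _ hlt t1
  have d1 : ∀ j : Fin mm.length, dig (repc b1 (ix b1 fun i =>
      Sum.elim z (fun j => y (E (Sum.inl j))) (E1.symm i))) (mm[j]).1 = (rl w (z j)).val := by
    intro j
    have := hw (E1 (Sum.inl j))
    rw [a1] at this
    rw [← this]
    simp
  have d2 : ∀ j : Fin ra.length, dig (repc b1 (ix b1 fun i =>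
      Sum.elim z (fun j => y (E (Sum.inl j))) (E1.symm i))) (ra[j]).1
        = (rl w (y (E (Sum.inl j)))).val := by
    intro j
    have := hw (E1 (Sum.inr j))
    rw [a2] at this
    rw [← this]
    simp
  obtain ⟨v2', i2'⟩ := G2.rl w _ v2
  obtain ⟨vy', iy'⟩ := G.rl w y vy
  unfold chk1 at hc
  have hl := loop_sound _ _ _ _ _ _ _ _ hc
    (fun j => rl w (y (E (Sum.inr (Fin.cast (List.length_map ..) j))))) (fun c => by
      rw [PV_foldr mm (fun p => mk (dig _ p.1)), PV_parb]
      simp only [d1]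
      have p2 := v2' c
      rw [sum2] at p2
      simp only [Equiv.symm_apply_apply, Sum.elim_inl, Sum.elim_inr] at p2
      rw [← p2]
      have e : (∑ j : Fin (rb.map (fun p => (wt b2 p.1, wt b p.2))).length,
          PV (mk (rl w (y (E (Sum.inr (Fin.cast (List.length_map ..) j))))).val) c)
          = ∑ j : Fin rb.length, PV (mk (rl w (y (E (Sum.inr j)))).val) c :=
        Fintype.sum_equiv (finCongr (List.length_map ..)) _ _ (fun j => rfl)
      rw [e]
      have : ∀ a b : ZMod 2, a + b + a = b := by decide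
      exact this _ _)
  have s1 : ((mm.map (fun p => Nat.mul (wt b2 p.2) (dig (repc b1 (ix b1 fun i =>
      Sum.elim z (fun j => y (E (Sum.inl j))) (E1.symm i))) p.1))).sum)
      = ∑ j : Fin mm.length, wt b2 (mm[j]).2 * (rl w (z j)).val := by
    rw [← Fin.sum_univ_fun_getElem]
    refine Finset.sum_congr rfl fun j _ => ?_
    exact congrArg (fun t => wt b2 (mm[j]).2 * t) (d1 j)
  have s2 : ((ra.map (fun p => Nat.mul (wt b p.2) (dig (repc b1 (ix b1 fun i =>
      Sum.elim z (fun j => y (E (Sum.inl j))) (E1.symm i))) p.1))).sum)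
      = ∑ j : Fin ra.length, wt b (ra[j]).2 * (rl w (y (E (Sum.inl j)))).val := by
    rw [← Fin.sum_univ_fun_getElem]
    refine Finset.sum_congr rfl fun j _ => ?_
    exact congrArg (fun t => wt b (ra[j]).2 * t) (d2 j)
  rw [s1, s2] at hl
  have s3 := sum_map_cast rb (fun p => (wt b2 p.1, wt b p.2)) Prod.fst
    (fun j => (rl w (y (E (Sum.inr j)))).val)
  have s4 := sum_map_cast rb (fun p => (wt b2 p.1, wt b p.2)) Prod.snd
    (fun j => (rl w (y (E (Sum.inr j)))).val)
  rw [s3, s4] at hl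
  have f2 : (∑ j : Fin mm.length, wt b2 (mm[j]).2 * (rl w (z j)).val)
      + (∑ j : Fin rb.length, wt b2 (rb[j]).1 * (rl w (y (E (Sum.inr j)))).val)
      = cd b2 (fun i => rl w (Sum.elim z (fun j => y (E (Sum.inr j))) (E2.symm i))) := by
    unfold cd
    rw [sum2]
    simp only [Equiv.symm_apply_apply, Sum.elim_inl, Sum.elim_inr, a3, a4]
  have fR : (∑ j : Fin ra.length, wt b (ra[j]).2 * (rl w (y (E (Sum.inl j)))).val)
      + (∑ j : Fin rb.length, wt b (rb[j]).2 * (rl w (y (E (Sum.inr j)))).val)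
      = cd b (fun i => rl w (y i)) := by
    unfold cd
    rw [sum3]
    simp only [a5, a6]
  rw [f2, fR] at hl
  unfold tst at hl
  have g2 : tb C2 (look (tab b2) (cd b2 (fun i =>
      rl w (Sum.elim z (fun j => y (E (Sum.inr j))) (E2.symm i))))) = true := by
    have : look (tab b2) (cd b2 (fun i =>
      rl w (Sum.elim z (fun j => y (E (Sum.inr j))) (E2.symm i)))) = ix b2 (fun i =>
        Sum.elim z (fun j => y (E (Sum.inr j))) (E2.symm i)) := i2'
    rw [this]; exact t2
  rw [g2] at hl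
  simp only [Bool.not_true, Bool.false_or] at hl
  refine ⟨vy, ?_⟩
  rw [← iy']
  exact hl

/-! ### flow values -/

/-- linear forms `a X + b Y + c` -/
abbrev LF := ℤ × ℤ × ℤ

/-- evaluation -/
def ev (X Y : ℤ) (v : LF) : ℤ := v.1 * X + v.2.1 * Y + v.2.2

/-- `a s + b t` is a small multiple of `M` -/
def isMul (M : LF) (s : ℤ) (a : LF) (t : ℤ) (b : LF) : Bool :=
  [0, 1, -1, 2, -2].any (fun c : ℤ => decide (s * a.1 + t * b.1 = c * M.1) &&
    (decide (s * a.2.1 + t * b.2.1 = c * M.2.1) && decide (s * a.2.2 + t * b.2.2 = c * M.2.2)))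

theorem isMul_sound {M : LF} {s t : ℤ} {a b : LF} (h : isMul M s a t b = true) (X Y : ℤ) :
    ev X Y M ∣ s * ev X Y a + t * ev X Y b := by
  unfold isMul at h
  simp only [List.any_eq_true, Bool.and_eq_true, decide_eq_true_eq] at h
  obtain ⟨c, _, h1, h2, h3⟩ := h
  refine ⟨c, ?_⟩
  unfold ev
  linear_combination X * h1 + Y * h2 + h3

/-- check of the flow values of a join -/
def chkF (M : LF) (p1 p2 p : List LF) (mm ra rb : List (ℕ × ℕ)) (s1 s2 : ℤ) : Bool :=
  mm.all (fun q => isMul M s1 (p1.getD q.1 0) s2 (p2.getD q.2 0)) &&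
    (ra.all (fun q => isMul M s1 (p1.getD q.1 0) (-1) (p.getD q.2 0)) &&
      rb.all (fun q => isMul M s2 (p2.getD q.1 0) (-1) (p.getD q.2 0)))

/-- there is a pole with `b` dangling edges, flow values `p` and relation `C` -/
def Nd (X Y : ℤ) (M T : LF) (b : ℕ) (p : List LF) (C : ℕ) : Prop :=
  Real (ev X Y M) (ev X Y T) (fun i : Fin b => ev X Y (p.getD i.val 0)) (Cs b C)

theorem Real.sign {β : Type} [Fintype β] {m t : ℤ} {phi : β → ℤ} {C : (β → Fin 10) → Prop}
    (h : Real m t phi C) (s : ℤ) (hs : s = 1 ∨ s = -1) : Real m t (fun i => s * phi i) C := by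
  rcases hs with rfl | rfl
  · simpa using h
  · simpa using h.neg

/-- The join rule. -/
theorem Nd.join {X Y : ℤ} {M T : LF} {b1 b2 : ℕ} {p1 p2 : List LF} {C1 C2 : ℕ}
    (H1 : Nd X Y M T b1 p1 C1) (H2 : Nd X Y M T b2 p2 C2) {b : ℕ} {p : List LF} {C : ℕ}
    (mm ra rb : List (ℕ × ℕ)) (s1 s2 : ℤ)
    (h : (chkC b1 b2 b C1 C2 C mm ra rb && (chkF M p1 p2 p mm ra rb s1 s2 &&
      (decide (s1 = 1 ∨ s1 = -1) && decide (s2 = 1 ∨ s2 = -1)))) = true) :
    Nd X Y M T b p C := by
  simp only [Bool.and_eq_true, decide_eq_true_eq] at h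
  obtain ⟨hC, hF, hs1, hs2⟩ := h
  unfold chkC at hC
  simp only [Bool.and_eq_true] at hC
  obtain ⟨q1, q2, q3, o1, o2, o3, hC⟩ := hC
  obtain ⟨E1, a1, a2⟩ := exists_equiv _ _ _ _ _ q1
  obtain ⟨E2, a3, a4⟩ := exists_equiv _ _ _ _ _ q2
  obtain ⟨E, a5, a6⟩ := exists_equiv _ _ _ _ _ q3
  unfold chkF at hF
  simp only [Bool.and_eq_true, List.all_eq_true] at hF
  obtain ⟨f1, f2, f3⟩ := hF
  have R1 := (Real.sign H1 s1 hs1).reindex E1
  have R2 := (Real.sign H2 s2 hs2).reindex E2
  have R3 := Real.join R1 R2 (fun j => by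
    rw [a1, a3]
    exact isMul_sound (f1 _ (List.getElem_mem _)) X Y)
  have R4 := R3.reindex E.symm
  have R5 := Real.congr (psi := fun i : Fin b => ev X Y (p.getD i.val 0)) R4 (by
    intro i
    obtain ⟨j, rfl⟩ := E.surjective i
    rcases j with j | j
    · simp only [Equiv.symm_apply_apply, Sum.elim_inl, a2, a5]
      have := isMul_sound (f2 _ (List.getElem_mem j.isLt)) X Y
      rw [neg_one_mul, ← sub_eq_add_neg] at this
      exact this
    · simp only [Equiv.symm_apply_apply, Sum.elim_inr, a4, a6]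
      have := isMul_sound (f3 _ (List.getElem_mem j.isLt)) X Y
      rw [neg_one_mul, ← sub_eq_add_neg] at this
      exact this)
  refine R5.mono fun y hy => ?_
  obtain ⟨z, z1, z2⟩ := hy
  simp only [Equiv.symm_symm] at z1 z2
  refine core (good_okb b1 o1) (good_okb b2 o2) (good_okb b o3) ?_ E1 E2 E a1 a2 a3 a4 a5 a6 z y z1 z2
  intro i hi hti
  rw [List.all_eq_true] at hC
  have := hC i (List.mem_range.2 hi)
  rw [hti] at this
  simpa using this

/-! ### vertices -/

theorem vertex_aux : ∀ a b c : Fin 10, (∀ l : Fin 4, ((if has a l then 1 else 0)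
    + (if has b l then 1 else 0) + (if has c l then (1 : ℕ) else 0)) = 1) →
      (∀ l : Fin 4, PV (mk a.val) l + PV (mk b.val) l + PV (mk c.val) l = 3) ∧
        tb 7 (look (tab 3) (a.val + 10 * b.val)) = true := by
  decide +kernel

theorem vertex_rel (y : Fin 3 → Fin 10) (h : ∀ l : Fin 4, ((if has (y 0) l then 1 else 0)
    + (if has (y 1) l then 1 else 0) + (if has (y 2) l then (1 : ℕ) else 0)) = 1) :
    Cs 3 7 y := by
  obtain ⟨h1, h2⟩ := vertex_aux (y 0) (y 1) (y 2) h
  refine ⟨fun c => ?_, ?_⟩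
  · rw [Fin.sum_univ_three, h1 c]; rfl
  · have : cd 3 y = (y 0).val + 10 * (y 1).val := by
      unfold cd
      rw [Fin.sum_univ_three]
      simp [wt]
    unfold ix
    rw [this]; exact h2

/-- the form is nonnegative for `X ≥ K` -/
def nn (K : ℤ) (a b c : ℤ) : Bool := decide (b = 0) && (decide (0 ≤ a) && decide (0 ≤ a * K + c))

/-- the value `v` is legal for `X ≥ K` -/
def legG (K : ℤ) (M T v : LF) : Bool :=
  nn K (v.1 - T.1) (v.2.1 - T.2.1) (v.2.2 - T.2.2) &&
    nn K (M.1 - T.1 - v.1) (M.2.1 - T.2.1 - v.2.1) (M.2.2 - T.2.2 - v.2.2)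

theorem nn_sound {K a b c : ℤ} (h : nn K a b c = true) {X : ℤ} (hX : K ≤ X) (Y : ℤ) :
    0 ≤ a * X + b * Y + c := by
  unfold nn at h
  simp only [Bool.and_eq_true, decide_eq_true_eq] at h
  obtain ⟨h1, h2, h3⟩ := h
  subst h1
  nlinarith [mul_nonneg h2 (sub_nonneg.2 hX)]

theorem legG_sound {K : ℤ} {M T v : LF} (h : legG K M T v = true) {X : ℤ} (hX : K ≤ X) (Y : ℤ) :
    Leg (ev X Y M) (ev X Y T) (ev X Y v) := by
  unfold legG at h
  simp only [Bool.and_eq_true] at h
  have h1 := nn_sound h.1 hX Y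
  have h2 := nn_sound h.2 hX Y
  refine ⟨0, ?_, ?_⟩
  · unfold ev; nlinarith
  · unfold ev; nlinarith

/-- The vertex rule. -/
theorem Nd.vertex {X Y : ℤ} {M T : LF} {K : ℤ} (hX : K ≤ X) {p : List LF}
    (h : (legG K M T (p.getD 0 0) && (legG K M T (p.getD 1 0) && (legG K M T (p.getD 2 0) &&
      isMul M 1 ((p.getD 0 0).1 + (p.getD 1 0).1, (p.getD 0 0).2.1 + (p.getD 1 0).2.1,
        (p.getD 0 0).2.2 + (p.getD 1 0).2.2) 1 (p.getD 2 0)))) = true) :
    Nd X Y M T 3 p 7 := by
  simp only [Bool.and_eq_true] at h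
  obtain ⟨h0, h1, h2, h3⟩ := h
  refine (Real.vertex (fun i : Fin 3 => ev X Y (p.getD i.val 0)) ?_ ?_).mono vertex_rel
  · intro i
    fin_cases i
    · exact legG_sound h0 hX Y
    · exact legG_sound h1 hX Y
    · exact legG_sound h2 hX Y
  · have := isMul_sound h3 X Y
    have e : (1 : ℤ) * ev X Y ((p.getD 0 0).1 + (p.getD 1 0).1, (p.getD 0 0).2.1 + (p.getD 1 0).2.1,
        (p.getD 0 0).2.2 + (p.getD 1 0).2.2) + 1 * ev X Y (p.getD 2 0)
        = ev X Y (p.getD 0 0) + ev X Y (p.getD 1 0) + ev X Y (p.getD 2 0) := by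
      unfold ev; ring
    rw [e] at this
    exact this

/-- A closed pole with empty relation. -/
theorem Nd.closed {X Y : ℤ} {M T : LF} {p : List LF} (h : Nd X Y M T 0 p 0) :
    Real (ev X Y M) (ev X Y T) (fun i : Fin 0 => ev X Y (p.getD i.val 0)) (fun _ => False) := by
  refine h.mono fun y hy => ?_
  have h2 := hy.2
  have : ix 0 y = 0 := by simp [ix, cd, tab, look]
  rw [this] at h2
  exact absurd h2 (by decide)

end Pool.Agent.Lib.MP_239067_co.Pole
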