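import Mathlib
import Pool.Agent.Lib.MP_239067_co.Pole.Defs

/-!
Invariance under the permutations of the four matchings.
-/

set_option autoImplicit false
set_option linter.all false

open Finset BigOperators

namespace Pool.Agent.Lib.MP_239067_co.Pole

/-- Every label can be relabelled by a permutation of the four matchings. -/
theorem exists_relabel (ρ : Equiv.Perm (Fin 4)) (a : Fin 10) :
    ∃ b : Fin 10, ∀ l : Fin 4, has b l = has a (ρ l) := by
  have h : ∀ (L : Finset (Fin 4)), 1 ≤ L.card → L.card ≤ 2 →
      ∃ b : Fin 10, ∀ l : Fin 4, has b l = true ↔ l ∈ L := by decide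
  have h2 : ∀ a : Fin 10, 1 ≤ (Finset.univ.filter (fun l => has a l = true)).card
      ∧ (Finset.univ.filter (fun l => has a l = true)).card ≤ 2 := by decide
  have h3 : (Finset.univ.filter (fun l => has a (ρ l) = true)).card
      = (Finset.univ.filter (fun l => has a l = true)).card := by
    rw [Finset.card_filter, Finset.card_filter]
    exact Equiv.sum_comp ρ (fun l => if has a l = true then 1 else 0)
  obtain ⟨b, hb⟩ := h (Finset.univ.filter (fun l => has a (ρ l) = true))
    (by rw [h3]; exact (h2 a).1) (by rw [h3]; exact (h2 a).2)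
  refine ⟨b, fun l => ?_⟩
  have := hb l
  rw [Finset.mem_filter] at this
  cases h4 : has b l <;> cases h5 : has a (ρ l) <;> simp_all

/-- The set of boundary labellings may be made invariant under the symmetric group. -/
theorem Real.sym {β : Type} [Fintype β] {m t : ℤ} {phi : β → ℤ} {C : (β → Fin 10) → Prop}
    (h : Real m t phi C) :
    Real m t phi (fun y => ∀ (ρ : Equiv.Perm (Fin 4)) (y' : β → Fin 10),
      (∀ i l, has (y' i) l = has (y i) (ρ l)) → C y') := by
  obtain ⟨G, h1, h2, h3⟩ := h
  refine ⟨G, h1, h2, fun x y hxy ρ y' hy' => ?_⟩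
  choose x' hx' using fun e => exists_relabel ρ (x e)
  refine h3 x' y' fun v l => ?_
  have := hxy v (ρ l)
  unfold OG.vs at this ⊢
  simp only [hx', hy']
  exact this

/-- A weaker predicate may be used on one representative of each orbit. -/
theorem Real.sym' {β : Type} [Fintype β] {m t : ℤ} {phi : β → ℤ} {C D : (β → Fin 10) → Prop}
    (h : Real m t phi C)
    (hD : ∀ y, (∀ (ρ : Equiv.Perm (Fin 4)) (y' : β → Fin 10),
      (∀ i l, has (y' i) l = has (y i) (ρ l)) → C y') → D y) : Real m t phi D :=
  h.sym.mono hD

end Pool.Agent.Lib.MP_239067_co.Pole
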